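import Pool.Agent.W345.VO.Stm

/-!
Project VO, part FOCK: Fock space facts.
-/

namespace Pool.Agent.W377.VO

open MvPolynomial Pool.Agent.W345.VO

lemma coeff_pderiv' (n : ℕ →₀ ℕ) (i : ℕ) (p : PP) :
    coeff n (pderiv i p) = ((n i : ℂ) + 1) * coeff (n + Finsupp.single i 1) p := by
  induction p using MvPolynomial.induction_on' with
  | add p q hp hq => rw [map_add, coeff_add, hp, hq, coeff_add, mul_add]
  | monomial s a =>
    rw [pderiv_monomial, coeff_monomial, coeff_monomial]
    by_cases h : s = n + Finsupp.single i 1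
    · subst h
      rw [if_pos (by simp), if_pos rfl]
      simp only [Finsupp.coe_add, Pi.add_apply, Finsupp.single_eq_same, Nat.cast_add,
        Nat.cast_one]
      ring
    · rw [if_neg h, mul_zero]
      by_cases h0 : s i = 0
      · simp [h0]
      · rw [if_neg]
        intro h1
        apply h
        rw [← h1]
        ext j
        by_cases hj : j = i
        · subst hj
          simp only [Finsupp.coe_add, Finsupp.coe_tsub, Pi.add_apply, Pi.sub_apply,
            Finsupp.single_eq_same]
          omega
        · simp [Ne.symm hj]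

lemma const_of_pderiv {p : PP} (h : ∀ i, pderiv i p = 0) : p = C (coeff 0 p) := by
  ext m
  rw [coeff_C]
  split_ifs with h0
  · rw [h0]
  · have : ∃ i, m i ≠ 0 := by
      by_contra hc
      push Not at hc
      exact h0 (by ext i; rw [hc i]; rfl)
    obtain ⟨i, hi⟩ := this
    have h1 := coeff_pderiv' (m - Finsupp.single i 1) i p
    have h2 : m - Finsupp.single i 1 + Finsupp.single i 1 = m := by
      ext j
      by_cases hj : j = i
      · subst hj
        simp only [Finsupp.coe_add, Finsupp.coe_tsub, Pi.add_apply, Pi.sub_apply,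
          Finsupp.single_eq_same]
        omega
      · simp [Ne.symm hj]
    rw [h i, coeff_zero, h2] at h1
    have h3 : ((((m - Finsupp.single i 1 : ℕ →₀ ℕ) i : ℕ) : ℂ) + 1) ≠ 0 := Nat.cast_add_one_ne_zero _
    exact (mul_eq_zero.1 h1.symm).resolve_left h3

lemma hOp_pos_apply (l : ℕ) (v : VV) (k : ℤ) :
    (hOp ((l : ℤ) + 1) v) k = (2 * ((l : ℂ) + 1)) • pderiv l (v k) := by
  have h : (Finsupp.lapply k : VV →ₗ[ℂ] PP) ∘ₗ hOp ((l : ℤ) + 1) =
      ((2 * ((l : ℂ) + 1)) • (pderiv l).toLinearMap) ∘ₗ (Finsupp.lapply k : VV →ₗ[ℂ] PP) := by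
    apply ext_single
    intro k' p
    show (hOp ((l : ℤ) + 1) (Finsupp.single k' p)) k =
      (2 * ((l : ℂ) + 1)) • pderiv l ((Finsupp.single k' p : VV) k)
    rw [hOp_pos]
    by_cases hk : k' = k
    · subst hk
      rw [Finsupp.single_eq_same, Finsupp.single_eq_same]
    · rw [Finsupp.single_eq_of_ne (Ne.symm hk), Finsupp.single_eq_of_ne (Ne.symm hk), map_zero,
        smul_zero]
  exact congrArg (fun f => f v) h

lemma single_C (k : ℤ) (c : ℂ) : (Finsupp.single k (C c) : VV) = c • ee k := by
  unfold ee
  rw [Finsupp.smul_single]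
  congr 1
  rw [MvPolynomial.smul_eq_C_mul, mul_one]

theorem fock : S_FOCK := by
  constructor
  · intro v hv
    rw [← Finsupp.sum_single v]
    refine Submodule.sum_mem _ fun k _ => ?_
    have h1 : v k = C (coeff 0 (v k)) := by
      apply const_of_pderiv
      intro i
      have h2 := hOp_pos_apply i v k
      rw [hv _ (by positivity)] at h2
      have h3 : (2 * ((i : ℂ) + 1)) ≠ 0 := mul_ne_zero two_ne_zero (Nat.cast_add_one_ne_zero _)
      exact (smul_eq_zero.1 h2.symm).resolve_left h3
    rw [h1, single_C]
    exact Submodule.smul_mem _ _ (Submodule.subset_span ⟨k, rfl⟩)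
  · intro S h1 h2
    rw [eq_top_iff]
    rintro v -
    have key : ∀ (k : ℤ) (p : PP), (Finsupp.single k p : VV) ∈ S := by
      intro k p
      induction p using MvPolynomial.induction_on with
      | C a => rw [single_C]; exact S.smul_mem _ (h1 k)
      | add p q hp hq => rw [Finsupp.single_add]; exact S.add_mem hp hq
      | mul_X p i hp =>
        have := h2 i _ hp
        rw [hOp_neg, mul_comm] at this
        exact this
    rw [← Finsupp.sum_single v]
    exact Submodule.sum_mem _ fun k _ => key k _

end Pool.Agent.W377.VO
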